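import Pool.Agent.H458.AR.Fld
import Pool.Graph.R_pool_sql_team_seeded_63374d34.N966.PQ.Base
import Pool.Graph.R_pool_sql_team_seeded_63374d34.N667.PQ.Ns
import Pool.Graph.R_pool_sql_team_seeded_63374d34.N849.PQ.Int
import Pool.Graph.R_pool_sql_team_seeded_63374d34.N747.PQ.Exq

/-!
Project AR (helper458), part RJP (helper350): local solubility at a prime `p` dividing the twisting
parameter.
-/

set_option autoImplicit false
set_option linter.all false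

open Polynomial IsDedekindDomain NumberField
open scoped Classical

namespace Pool.Agent.H350.AR458

open Pool.Agent.N922.PQ
open Pool.Agent.N874.PP (Ev Sq1 U0)
open Pool.Agent.N966.PQ (mulc val_lt val_le val_eq loc_int lift_quad)
open Pool.Agent.N667.PQ (crd_iff exists_theta isInt J1 J2 mem_J2_iff eq_J norm_crd dn)
open Pool.Agent.N862.PP (sq1_mul_sq)

/-! ### A fixed point over `ℤ_p` -/

section fix

variable {p : ℕ} [Fact p.Prime]

theorem smod_iff (x y : ℤ_[p]) (n : ℕ) :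
    x ≡ y [SMOD (IsLocalRing.maximalIdeal ℤ_[p] ^ n • ⊤ : Submodule ℤ_[p] ℤ_[p])] ↔
      (p : ℤ_[p]) ^ n ∣ x - y := by
  rw [SModEq.sub_mem, smul_eq_mul, Ideal.mul_top, PadicInt.maximalIdeal_eq_span_p,
    Ideal.span_singleton_pow, Ideal.mem_span_singleton]

theorem lim (x : ℕ → ℤ_[p]) (h : ∀ n, (p : ℤ_[p]) ^ n ∣ x (n + 1) - x n) :
    ∃ L, ∀ n, (p : ℤ_[p]) ^ n ∣ L - x n := by
  have h1 : ∀ m n, m ≤ n → (p : ℤ_[p]) ^ m ∣ x n - x m := by
    intro m n hmn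
    induction n, hmn using Nat.le_induction with
    | base => simp
    | succ n hmn ih =>
      have := dvd_add ((pow_dvd_pow (p : ℤ_[p]) hmn).trans (h n)) ih
      rwa [sub_add_sub_cancel] at this
  obtain ⟨L, hL⟩ := IsPrecomplete.prec
    (inferInstance : IsPrecomplete (IsLocalRing.maximalIdeal ℤ_[p]) ℤ_[p]) (f := x) (by
      intro m n hmn
      rw [smod_iff, ← dvd_neg, neg_sub]
      exact h1 m n hmn)
  refine ⟨L, fun n => ?_⟩
  have := hL n
  rw [smod_iff, ← dvd_neg, neg_sub] at this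
  exact this

theorem zero_of (x : ℤ_[p]) (h : ∀ n, (p : ℤ_[p]) ^ n ∣ x) : x = 0 := by
  refine IsHausdorff.haus
    (inferInstance : IsHausdorff (IsLocalRing.maximalIdeal ℤ_[p]) ℤ_[p]) x (fun n => ?_)
  rw [smod_iff, sub_zero]
  exact h n

theorem fixp (P : (Fin 3 → ℤ_[p]) → Fin 3 → ℤ_[p])
    (hP : ∀ (d : ℤ_[p]) (x y : Fin 3 → ℤ_[p]), (∀ i, d ∣ x i - y i) → ∀ i, d ∣ P x i - P y i)
    (u : Fin 3 → ℤ_[p]) : ∃ y : Fin 3 → ℤ_[p], ∀ i, y i = u i - p * P y i := by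
  let y : ℕ → Fin 3 → ℤ_[p] := fun n => Nat.rec 0 (fun _ z i => u i - p * P z i) n
  have hs : ∀ n i, y (n + 1) i = u i - p * P (y n) i := fun n i => rfl
  have h1 : ∀ n i, (p : ℤ_[p]) ^ n ∣ y (n + 1) i - y n i := by
    intro n
    induction n with
    | zero => intro i; simp
    | succ n ih =>
      intro i
      have e : y (n + 1 + 1) i - y (n + 1) i = -(p * (P (y (n + 1)) i - P (y n) i)) := by
        rw [hs (n + 1), hs n]
        ring
      rw [e, dvd_neg, pow_succ, mul_comm]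
      exact mul_dvd_mul_left (p : ℤ_[p]) (hP _ _ _ ih i)
  choose L hL using fun i => lim (fun n => y n i) (fun n => h1 n i)
  refine ⟨L, fun i => sub_eq_zero.1 (zero_of _ fun n => ?_)⟩
  have e : L i - (u i - p * P L i) = (L i - y (n + 1) i) + p * (P L i - P (y n) i) := by
    rw [hs n]
    ring
  rw [e]
  exact dvd_add ((pow_dvd_pow (p : ℤ_[p]) (Nat.le_succ n)).trans (hL i (n + 1)))
    (Dvd.dvd.mul_left (hP _ _ _ (fun i => hL i n) i) (p : ℤ_[p]))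

theorem mulc_dvd (a b d : ℤ_[p]) (x y : Fin 3 → ℤ_[p]) (hx : ∀ i, d ∣ x i - y i) :
    ∀ i, d ∣ mulc a b x x i - mulc a b y y i := by
  simp only [← Ideal.mem_span_singleton, ← Ideal.Quotient.eq] at *
  intro i
  fin_cases i <;> simp [mulc, hx 0, hx 1, hx 2]

/-- The polynomial with given coefficients. -/
noncomputable def pol (w : Fin 3 → ℚ_[p]) : ℚ_[p][X] := C (w 0) + C (w 1) * X + C (w 2) * X ^ 2

/-- `1 + p w` is a square modulo the cubic polynomial. -/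
theorem sq_one (h2 : p ≠ 2) (a b : ℤ) (w : Fin 3 → ℤ_[p]) :
    ∃ g : ℚ_[p][X], ff ℚ_[p] a b ∣
      (1 + C (p : ℚ_[p]) * pol (fun i => (w i : ℚ_[p]))) - g ^ 2 := by
  obtain ⟨c, hc⟩ : ∃ c : ℤ_[p], 2 * c = 1 := by
    have hn : ‖((2 : ℤ) : ℤ_[p])‖ = 1 := by
      refine le_antisymm (PadicInt.norm_le_one _) (not_lt.1 fun h => ?_)
      rw [PadicInt.norm_int_lt_one_iff_dvd] at h
      have h4 : p ∣ 2 := by exact_mod_cast h
      exact h2 ((Nat.prime_dvd_prime_iff_eq Fact.out Nat.prime_two).1 h4)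
    obtain ⟨c, hc⟩ := (PadicInt.isUnit_iff.2 hn).exists_right_inv
    exact ⟨c, by rw [← hc]; push_cast; ring⟩
  obtain ⟨y, hy⟩ := fixp (fun y i => c * mulc (a : ℤ_[p]) (b : ℤ_[p]) y y i) (by
    intro d x y h i
    have := Dvd.dvd.mul_left (mulc_dvd (a : ℤ_[p]) (b : ℤ_[p]) d x y h i) c
    rwa [mul_sub] at this) (fun i => c * w i)
  have hy' : ∀ i, y i + y i = w i - p * mulc (a : ℤ_[p]) (b : ℤ_[p]) y y i := by
    intro i
    have h1 := hy i
    linear_combination 2 * h1 + (w i - p * mulc (a : ℤ_[p]) (b : ℤ_[p]) y y i) * hc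
  have hq : ∀ i, (y i : ℚ_[p]) + (y i : ℚ_[p]) = (w i : ℚ_[p]) -
      p * ((mulc (a : ℤ_[p]) (b : ℤ_[p]) y y i : ℤ_[p]) : ℚ_[p]) := by
    intro i
    have := congrArg (fun z : ℤ_[p] => (z : ℚ_[p])) (hy' i)
    simpa using this
  have h0 := hq 0
  have h1 := hq 1
  have h2' := hq 2
  simp only [mulc, Matrix.cons_val_zero, Matrix.cons_val_one, Matrix.cons_val, PadicInt.coe_sub,
    PadicInt.coe_add, PadicInt.coe_mul, PadicInt.coe_intCast] at h0 h1 h2'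
  refine ⟨1 + C (p : ℚ_[p]) * pol (fun i => (y i : ℚ_[p])),
    - C (p : ℚ_[p]) ^ 2 * (2 * C (y 1 : ℚ_[p]) * C (y 2 : ℚ_[p]) + C (y 2 : ℚ_[p]) ^ 2 * X), ?_⟩
  have e0 := congrArg (C : ℚ_[p] → ℚ_[p][X]) h0
  have e1 := congrArg (C : ℚ_[p] → ℚ_[p][X]) h1
  have e2 := congrArg (C : ℚ_[p] → ℚ_[p][X]) h2'
  simp only [map_sub, map_add, map_mul, map_ofNat] at e0 e1 e2
  unfold pol ff
  linear_combination -C (p : ℚ_[p]) * e0 - C (p : ℚ_[p]) * X * e1 - C (p : ℚ_[p]) * X ^ 2 * e2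

end fix

/-! ### From `L` to `ℚ_p[X]` -/

section transfer

variable {L : Type} [Field L] [CharZero L] {a b : ℤ} {θ : L} {p : ℕ} [Fact p.Prime]

theorem dvd_of (hc : IsCub a b θ) {P Q : ℚ[X]} (h : aeval θ P = aeval θ Q) :
    ff ℚ_[p] a b ∣ P.map (algebraMap ℚ ℚ_[p]) - Q.map (algebraMap ℚ ℚ_[p]) := by
  have h3 : ff ℚ a b ∣ P - Q := by
    rw [← hc.minpoly_eq]
    apply minpoly.dvd
    rw [map_sub, h, sub_self]
  have h4 := Polynomial.map_dvd (algebraMap ℚ ℚ_[p]) h3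
  rwa [ff_map, Polynomial.map_sub] at h4

theorem transfer (hc : IsCub a b θ) (h2 : p ≠ 2) {β γ : L} (hγ : γ ≠ 0) (m : ℤ)
    (hm : ¬ (p : ℤ) ∣ m) (v : Fin 3 → ℤ)
    (hv : (m : L) * (β * γ ^ 2) = (m : L) + (p : L) * ((v 0 : L) + (v 1 : L) * θ + (v 2 : L) * θ ^ 2))
    (h₁ : ℚ[X]) (hh : aeval θ h₁ = β) :
    ∃ g : ℚ_[p][X], ff ℚ_[p] a b ∣ h₁.map (algebraMap ℚ ℚ_[p]) - g ^ 2 := by
  obtain ⟨G, hG⟩ := hc.exists_poly γ
  obtain ⟨G', hG'⟩ := hc.exists_poly γ⁻¹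
  have hn : ‖((m : ℤ) : ℤ_[p])‖ = 1 := by
    refine le_antisymm (PadicInt.norm_le_one _) (not_lt.1 fun h => ?_)
    rw [PadicInt.norm_int_lt_one_iff_dvd] at h
    exact hm h
  obtain ⟨c, hc'⟩ := (PadicInt.isUnit_iff.2 hn).exists_right_inv
  have hcm : (m : ℚ_[p]) * (c : ℚ_[p]) = 1 := by
    have := congrArg (fun z : ℤ_[p] => (z : ℚ_[p])) hc'
    simpa using this
  obtain ⟨g, hg⟩ := sq_one h2 a b (fun i => c * (v i : ℤ_[p]))
  have d1 : ff ℚ_[p] a b ∣ (G * G').map (algebraMap ℚ ℚ_[p]) - (1 : ℚ[X]).map (algebraMap ℚ ℚ_[p]) := by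
    apply dvd_of hc
    rw [map_mul, hG, hG', mul_inv_cancel₀ hγ, map_one]
  have d2 : ff ℚ_[p] a b ∣ (C (m : ℚ) * (h₁ * G ^ 2)).map (algebraMap ℚ ℚ_[p]) -
      (C (m : ℚ) + C (p : ℚ) * (C (v 0 : ℚ) + C (v 1 : ℚ) * X + C (v 2 : ℚ) * X ^ 2)).map
        (algebraMap ℚ ℚ_[p]) := by
    apply dvd_of hc
    simp only [map_mul, map_add, map_pow, aeval_C, aeval_X, hG, hh, map_intCast, map_natCast]
    exact hv
  simp only [Polynomial.map_mul, Polynomial.map_add, Polynomial.map_pow, Polynomial.map_C,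
    Polynomial.map_X, Polynomial.map_one, map_intCast, map_natCast, Polynomial.map_intCast,
    Polynomial.map_natCast] at d1 d2
  obtain ⟨u1, hu1⟩ := d1
  obtain ⟨u2, hu2⟩ := d2
  obtain ⟨u3, hu3⟩ := hg
  have hC : C (m : ℚ_[p]) * C (c : ℚ_[p]) = (1 : ℚ_[p][X]) := by
    rw [← C_mul, hcm, C_1]
  simp only [pol, PadicInt.coe_mul, PadicInt.coe_intCast, C_mul] at hu3
  set f := ff ℚ_[p] a b with hf
  set H := h₁.map (algebraMap ℚ ℚ_[p]) with hH
  set Gp := G.map (algebraMap ℚ ℚ_[p]) with hGp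
  set Gp' := G'.map (algebraMap ℚ ℚ_[p]) with hGp'
  refine ⟨g * Gp', ?_⟩
  simp only [map_intCast, map_natCast] at hu2 hu3 hC
  have e : H - (g * Gp') ^ 2 = f * (C (c : ℚ_[p]) * Gp' ^ 2 * u2 + u3 * Gp' ^ 2
      - H * u1 * (Gp * Gp' + 1)) := by
    linear_combination C (c : ℚ_[p]) * Gp' ^ 2 * hu2 + Gp' ^ 2 * hu3 - H * (Gp * Gp' + 1) * hu1 -
      (Gp' ^ 2 * (H * Gp ^ 2) - Gp' ^ 2) * hC
  rw [e]
  exact Dvd.intro _ rfl

end transfer

/-! ### Approximation and classes -/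

section classes

variable {O L : Type} [CommRing O] [IsDedekindDomain O] [Field L] [Algebra O L] [IsFractionRing O L]

theorem weak2 (T : Finset (HeightOneSpectrum O)) (y : HeightOneSpectrum O → L)
    (hy : ∀ v ∈ T, y v ≠ 0) :
    ∃ g : L, ∀ v ∈ T, v.valuation L (g - y v) < v.valuation L (y v) := by
  obtain ⟨d, hd⟩ := IsLocalization.exist_integer_multiples (nonZeroDivisors O) T y
  have hd0 : algebraMap O L d ≠ 0 := IsLocalization.to_map_ne_zero_of_mem_nonZeroDivisors L le_rfl d.2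
  choose z hz using hd
  have hz' : ∀ v : T, algebraMap O L (z v v.2) = algebraMap O L d * y v := fun v => by
    rw [hz v v.2, ← Algebra.smul_def]
  have hz0 : ∀ v : T, z v v.2 ≠ 0 := fun v h => by
    have := hz' v
    rw [h, map_zero] at this
    rcases mul_eq_zero.1 this.symm with h1 | h1
    · exact hd0 h1
    · exact hy v v.2 h1
  have hn : ∀ v : HeightOneSpectrum O, ∃ n : ℕ, ∀ hv : v ∈ T, WithZero.exp (-(n : ℤ)) <
      v.intValuation (z v hv) := by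
    intro v
    by_cases hv : v ∈ T
    · obtain ⟨n, hn⟩ := WithZero.exists_exp_neg_natCast_lt
        (v.intValuation_ne_zero (z v hv) (hz0 ⟨v, hv⟩))
      exact ⟨n, fun _ => hn⟩
    · exact ⟨0, fun h => absurd h hv⟩
  choose n hn using hn
  obtain ⟨w, hw⟩ := IsDedekindDomain.exists_forall_sub_mem_ideal (s := T)
    (fun v : HeightOneSpectrum O => v.asIdeal) n (fun v _ => v.prime)
    (fun v _ v' _ h => fun h' => h (HeightOneSpectrum.ext h')) (fun v => z v v.2)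
  refine ⟨algebraMap O L w / algebraMap O L d, fun v hv => ?_⟩
  have h1 := (v.intValuation_le_pow_iff_mem _ _).2 (hw v hv)
  have h2 := h1.trans_lt (hn v hv)
  have e1 : algebraMap O L w / algebraMap O L d - y v =
      algebraMap O L (w - z v hv) / algebraMap O L d := by
    rw [map_sub, hz' ⟨v, hv⟩]
    field_simp
  have e2 : y v = algebraMap O L (z v hv) / algebraMap O L d := by
    rw [hz' ⟨v, hv⟩]
    field_simp
  have hd1 : v.valuation L (algebraMap O L d) ≠ 0 := (Valuation.ne_zero_iff _).2 hd0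
  have h3 : v.valuation L (algebraMap O L (w - z v hv)) < v.valuation L (algebraMap O L (z v hv)) := by
    rw [v.valuation_of_algebraMap, v.valuation_of_algebraMap]
    exact h2
  rw [e1]
  conv_rhs => rw [e2]
  rw [map_div₀, map_div₀]
  exact (div_lt_div_iff_of_pos_right (zero_lt_iff.2 hd1)).2 h3

theorem sq1_val {𝔓 : HeightOneSpectrum O} {x s : L}
    (h : 𝔓.valuation L (x - s ^ 2) < 𝔓.valuation L x) :
    𝔓.valuation L s ^ 2 = 𝔓.valuation L x := by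
  rw [← map_pow]
  exact (Valuation.map_eq_of_sub_lt _ (by rwa [Valuation.map_sub_swap] at h))

theorem sq1_mul {𝔓 : HeightOneSpectrum O} {x y : L} (hx : Sq1 𝔓 x) (hy : Sq1 𝔓 y) :
    Sq1 𝔓 (x * y) := by
  obtain ⟨s, hs⟩ := hx
  obtain ⟨t, ht⟩ := hy
  refine ⟨s * t, ?_⟩
  have h1 := sq1_val ht
  have hx0 : 0 < 𝔓.valuation L x := lt_of_le_of_lt zero_le hs
  have hy0 : 0 < 𝔓.valuation L y := lt_of_le_of_lt zero_le ht
  have e : x * y - (s * t) ^ 2 = x * (y - t ^ 2) + (x - s ^ 2) * t ^ 2 := by ring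
  rw [e, map_mul]
  refine Valuation.map_add_lt _ ?_ ?_
  · rw [map_mul]
    exact (mul_lt_mul_iff_right₀ hx0).2 ht
  · rw [map_mul, map_pow, h1]
    exact (mul_lt_mul_iff_left₀ hy0).2 hs

end classes

/-! ### Squares at the primes over `p` -/

section sq

variable {L O : Type} [Field L] [NumberField L] [CommRing O] [IsDedekindDomain O] [Algebra O L]
  [IsFractionRing O L] [IsIntegralClosure O ℤ L] {a b : ℤ} {θ : L}

theorem sq_repr (h : IsCub a b θ) (hsq : Squarefree (dsc a b)) {Q : ℤ} (hQ : Prime Q)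
    (hQb : Q ∣ b) (hns : ∀ z : ℤ, ¬ Q ∣ z ^ 2 + a) (β : L) (hβ : β ≠ 0)
    (hs : ∀ 𝔓 : HeightOneSpectrum O, Ov Q 𝔓 → Sq1 𝔓 β) :
    ∃ (γ : L) (m : ℤ) (v : Fin 3 → ℤ), γ ≠ 0 ∧ ¬ Q ∣ m ∧
      (m : L) * (β * γ ^ 2) = (m : L) + (Q : L) * ((v 0 : L) + (v 1 : L) * θ + (v 2 : L) * θ ^ 2) := by
  have hI : S_INT := Pool.Agent.N849.PQ.int
  obtain ⟨𝔓₁, 𝔮, hov1, hov2, hv1, hv2, -, hall⟩ :=
    Pool.Agent.N747.PQ.exq hI L O a b θ h hsq Q hQ hQb hns
  obtain ⟨t, ht, htr⟩ := exists_theta (O := O) h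
  have hne : ∀ 𝔓 : HeightOneSpectrum O, ∃ s : L, s ≠ 0 ∧
      (Ov Q 𝔓 → 𝔓.valuation L (β - s ^ 2) < 𝔓.valuation L β) := by
    intro 𝔓
    by_cases hov : Ov Q 𝔓
    · obtain ⟨s, hs⟩ := hs 𝔓 hov
      refine ⟨s, ?_, fun _ => hs⟩
      rintro rfl
      simp at hs
    · exact ⟨1, one_ne_zero, fun h => absurd h hov⟩
  choose y hy0 hy using hne
  obtain ⟨g, hg⟩ := weak2 {𝔓₁, 𝔮} y (fun v _ => hy0 v)
  have hg' : ∀ 𝔓 : HeightOneSpectrum O, Ov Q 𝔓 →
      𝔓.valuation L (β * g⁻¹ ^ 2 - 1) < 1 ∧ g ≠ 0 := by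
    intro 𝔓 hov
    have h1 : 𝔓.valuation L (g - y 𝔓) < 𝔓.valuation L (y 𝔓) := by
      apply hg
      rcases hall 𝔓 hov with rfl | rfl <;> simp
    have h2 : 𝔓.valuation L g = 𝔓.valuation L (y 𝔓) := Valuation.map_eq_of_sub_lt _ h1
    have hyv : 𝔓.valuation L (y 𝔓) ≠ 0 := (Valuation.ne_zero_iff _).2 (hy0 𝔓)
    have hg0 : g ≠ 0 := by
      rintro rfl
      rw [map_zero] at h2
      exact hyv h2.symm
    refine ⟨?_, hg0⟩
    have h3 := sq1_val (hy 𝔓 hov)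
    have h4 : 𝔓.valuation L (β - g ^ 2) < 𝔓.valuation L g ^ 2 := by
      have e : β - g ^ 2 = (β - y 𝔓 ^ 2) - (g - y 𝔓) * (g + y 𝔓) := by ring
      rw [e, h2]
      refine Valuation.map_sub_lt _ (by rw [h3]; exact hy 𝔓 hov) ?_
      rw [map_mul, sq]
      have h5 : 𝔓.valuation L (g + y 𝔓) ≤ 𝔓.valuation L (y 𝔓) :=
        Valuation.map_add_le _ h2.le le_rfl
      calc 𝔓.valuation L (g - y 𝔓) * 𝔓.valuation L (g + y 𝔓)
          ≤ 𝔓.valuation L (g - y 𝔓) * 𝔓.valuation L (y 𝔓) := mul_le_mul_right h5 _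
        _ < 𝔓.valuation L (y 𝔓) * 𝔓.valuation L (y 𝔓) :=
          (mul_lt_mul_iff_left₀ (zero_lt_iff.2 hyv)).2 h1
    have e : β * g⁻¹ ^ 2 - 1 = (β - g ^ 2) / g ^ 2 := by
      field_simp
    have hgv : 0 < 𝔓.valuation L g ^ 2 :=
      zero_lt_iff.2 (pow_ne_zero 2 ((Valuation.ne_zero_iff _).2 hg0))
    rw [e, map_div₀, map_pow, div_lt_one₀ hgv]
    exact h4
  have hg0 := (hg' 𝔓₁ hov1).2
  obtain ⟨m, hm, hint⟩ := loc_int (O := O) hQ (β * g⁻¹ ^ 2 - 1) (fun 𝔓 hov => (hg' 𝔓 hov).1.le)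
  obtain ⟨w, hw⟩ := (hI L a b θ h hsq _).1 hint
  obtain ⟨u, hu⟩ := (IsIntegralClosure.isIntegral_iff (A := O)).1 hint
  have hmem : ∀ 𝔓 : HeightOneSpectrum O, Ov Q 𝔓 → u ∈ 𝔓.asIdeal := by
    intro 𝔓 hov
    rw [← 𝔓.valuation_lt_one_iff_mem (K := L)]
    change 𝔓.valuation L (algebraMap O L u) < 1
    rw [hu, map_mul, val_eq hQ hov hm, one_mul]
    exact (hg' 𝔓 hov).1
  have hw' : (m : L) * (β * g⁻¹ ^ 2 - 1) = (w 0 : L) + (w 1 : L) * θ + (w 2 : L) * θ ^ 2 := hw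
  have hu' : u = (w 0 : O) + (w 1 : O) * t + (w 2 : O) * t ^ 2 := by
    apply IsFractionRing.injective O L
    rw [hu, hw']
    simp only [map_add, map_mul, map_pow, map_intCast, ht]
  have ha : ¬ Q ∣ a := fun hd => hns 0 (by simpa using hd)
  -- the prime `𝔓₁`
  have hq0 : Q ∣ w 0 := by
    rcases eq_J hI h hsq hQ hQb hns ht htr hov1 with ⟨h1, h2⟩ | ⟨h1, -⟩
    · by_contra hn
      have hm1 := hmem 𝔓₁ hov1
      have hm2 : ((w 0 : ℤ) : O) ∈ 𝔓₁.asIdeal := by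
        have e : ((w 0 : ℤ) : O) = u - (w 1 + w 2 * t) * t := by
          rw [hu']
          ring
        rw [e]
        exact 𝔓₁.asIdeal.sub_mem hm1 (𝔓₁.asIdeal.mul_mem_left _ h1)
      have hm3 : 𝔓₁.valuation L ((w 0 : ℤ) : L) < 1 := by
        rw [← map_intCast (algebraMap O L), HeightOneSpectrum.valuation_lt_one_iff_mem]
        exact hm2
      exact hn ((val_lt hQ hov1 _).1 hm3)
    · exfalso
      apply h1
      rw [← 𝔓₁.valuation_lt_one_iff_mem (K := L)]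
      change 𝔓₁.valuation L (algebraMap O L t) < 1
      rw [ht]
      exact hv1
  -- the prime `𝔮`
  have hq12 : Q ∣ w 0 - a * w 2 ∧ Q ∣ w 1 := by
    rcases eq_J hI h hsq hQ hQb hns ht htr hov2 with ⟨h1, -⟩ | ⟨-, h2⟩
    · exfalso
      rw [← 𝔮.valuation_lt_one_iff_mem (K := L)] at h1
      change 𝔮.valuation L (algebraMap O L t) < 1 at h1
      rw [ht, hv2] at h1
      exact lt_irrefl _ h1
    · have hm1 := hmem 𝔮 hov2
      rw [h2] at hm1
      refine mem_J2_iff hI h hsq hQ hQb hns ht ?_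
      have e : algebraMap ℤ O (w 0 - a * w 2) + algebraMap ℤ O (w 1) * t =
          u - algebraMap ℤ O (w 2) * (t ^ 2 + algebraMap ℤ O a) := by
        rw [hu']
        simp only [map_sub, map_mul, eq_intCast]
        ring
      rw [e]
      exact Ideal.sub_mem _ hm1 (Ideal.mul_mem_left _ _ (Pool.Agent.N667.PQ.t_mem_J2 Q a t))
  have hq2 : Q ∣ w 2 := by
    have h1 := dvd_sub hq0 hq12.1
    have e : w 0 - (w 0 - a * w 2) = a * w 2 := by ring
    rw [e] at h1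
    exact (hQ.dvd_or_dvd h1).resolve_left ha
  obtain ⟨v0, hv0⟩ := hq0
  obtain ⟨v1, hv1'⟩ := hq12.2
  obtain ⟨v2, hv2'⟩ := hq2
  refine ⟨g⁻¹, m, ![v0, v1, v2], inv_ne_zero hg0, hm, ?_⟩
  rw [hv0, hv1', hv2'] at hw'
  simp only [Matrix.cons_val_zero, Matrix.cons_val_one, Matrix.cons_val]
  push_cast at hw'
  linear_combination hw'

/-- If `β` is a square at all primes over `p` then it is a square in `ℚ_p[X] / (X³ + a X + b)`. -/
theorem sq_poly (h : IsCub a b θ) (hsq : Squarefree (dsc a b)) (p : ℕ) [Fact p.Prime] (h2 : p ≠ 2)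
    (hpb : (p : ℤ) ∣ b) (hns : ∀ z : ℤ, ¬ (p : ℤ) ∣ z ^ 2 + a) (β : L) (hβ : β ≠ 0)
    (hs : ∀ 𝔓 : HeightOneSpectrum O, Ov (p : ℤ) 𝔓 → Sq1 𝔓 β) (h₁ : ℚ[X]) (hh : aeval θ h₁ = β) :
    ∃ g : ℚ_[p][X], ff ℚ_[p] a b ∣ h₁.map (algebraMap ℚ ℚ_[p]) - g ^ 2 := by
  have hP : Prime (p : ℤ) := Nat.prime_iff_prime_int.1 (Fact.out : p.Prime)
  obtain ⟨γ, m, v, hγ, hm, hv⟩ := sq_repr (O := O) h hsq hP hpb hns β hβ hs
  exact transfer h h2 hγ m hm v (by rw [hv]; push_cast; ring) h₁ hh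

/-- Integers prime to `p` are squares at the prime of degree two. -/
theorem int_sq1 (h : IsCub a b θ) (p : ℕ) [Fact p.Prime]
    (hpb : (p : ℤ) ∣ b) (hns : ∀ z : ℤ, ¬ (p : ℤ) ∣ z ^ 2 + a) {𝔮 : HeightOneSpectrum O}
    (hov : Ov (p : ℤ) 𝔮) (hv : 𝔮.valuation L θ = 1) (m : ℤ) (hm : ¬ (p : ℤ) ∣ m) :
    Sq1 𝔮 (m : L) := by
  have hP : Prime (p : ℤ) := Nat.prime_iff_prime_int.1 (Fact.out : p.Prime)
  have hm0 : ((m : ℤ) : ZMod p) ≠ 0 := fun h0 => hm ((ZMod.intCast_zmod_eq_zero_iff_dvd m p).1 h0)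
  have ha : ¬ (p : ℤ) ∣ a := fun hd => hns 0 (by simpa using hd)
  have ha0 : ((-a : ℤ) : ZMod p) ≠ 0 := fun h0 => ha (by
    have := (ZMod.intCast_zmod_eq_zero_iff_dvd (-a) p).1 h0
    exact (dvd_neg.1 this))
  have hvm : 𝔮.valuation L (m : L) = 1 := val_eq hP hov hm
  by_cases hsm : IsSquare ((m : ℤ) : ZMod p)
  · obtain ⟨c, hc⟩ := hsm
    obtain ⟨c, rfl⟩ := ZMod.intCast_surjective c
    refine ⟨(c : L), ?_⟩
    have h1 : (p : ℤ) ∣ m - c ^ 2 := by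
      rw [← ZMod.intCast_zmod_eq_zero_iff_dvd]
      push_cast
      rw [hc]
      ring
    rw [hvm]
    have e : (m : L) - (c : L) ^ 2 = ((m - c ^ 2 : ℤ) : L) := by push_cast; ring
    rw [e]
    exact (val_lt hP hov _).2 h1
  · have hsa : ¬ IsSquare ((-a : ℤ) : ZMod p) := by
      rintro ⟨z, hz⟩
      obtain ⟨z, rfl⟩ := ZMod.intCast_surjective z
      apply hns z
      rw [← ZMod.intCast_zmod_eq_zero_iff_dvd]
      push_cast at hz ⊢
      rw [sq, ← hz]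
      ring
    have hl : legendreSym p (m * -a) = 1 := by
      rw [legendreSym.mul, (legendreSym.eq_neg_one_iff p).2 hsm, (legendreSym.eq_neg_one_iff p).2 hsa]
      norm_num
    have hma0 : ((m * -a : ℤ) : ZMod p) ≠ 0 := by
      rw [Int.cast_mul]
      exact mul_ne_zero hm0 ha0
    obtain ⟨c, hc⟩ := (legendreSym.eq_one_iff p hma0).1 hl
    obtain ⟨c, rfl⟩ := ZMod.intCast_surjective c
    obtain ⟨k, hk⟩ : (p : ℤ) ∣ m * -a - c ^ 2 := by
      rw [← ZMod.intCast_zmod_eq_zero_iff_dvd, Int.cast_sub, hc]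
      push_cast
      ring
    obtain ⟨u, w, huw⟩ := (hP.irreducible.coprime_iff_not_dvd).2 ha
    refine ⟨(c : L) * w * θ, ?_⟩
    have hθ : 𝔮.valuation L (θ ^ 2 + (a : L)) < 1 := by
      have e1 : θ * (θ ^ 2 + (a : L)) = ((-b : ℤ) : L) := by
        push_cast
        linear_combination h.root
      have h3 : 𝔮.valuation L (θ * (θ ^ 2 + (a : L))) < 1 := by
        rw [e1]
        exact (val_lt hP hov _).2 (dvd_neg.2 hpb)
      rwa [map_mul, hv, one_mul] at h3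
    have e : (m : L) - ((c : L) * w * θ) ^ 2 = ((m + c ^ 2 * w ^ 2 * a : ℤ) : L) -
        (((c * w) ^ 2 : ℤ) : L) * (θ ^ 2 + (a : L)) := by
      push_cast
      ring
    rw [hvm, e]
    refine Valuation.map_sub_lt _ ((val_lt hP hov _).2 ?_) ?_
    · refine ⟨m * u * (1 + a * w) - k * w ^ 2 * a, ?_⟩
      linear_combination (-w ^ 2 * a) * hk - m * (1 + a * w) * huw
    · rw [map_mul]
      calc 𝔮.valuation L (((c * w) ^ 2 : ℤ) : L) * 𝔮.valuation L (θ ^ 2 + (a : L))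
          ≤ 1 * 𝔮.valuation L (θ ^ 2 + (a : L)) := mul_le_mul_left (val_le 𝔮 _) _
        _ = 𝔮.valuation L (θ ^ 2 + (a : L)) := one_mul _
        _ < 1 := hθ

end sq

/-- Hensel's lemma over `ℤ`. -/
theorem exists_n {P a b : ℤ} (hP : Prime P) (ha : ¬ P ∣ a) (c : ℤ) (hc : P ∣ b - c) (k : ℕ) :
    ∃ n : ℤ, P ∣ n ∧ P ^ (k + 1) ∣ n ^ 3 + a * n + b - c := by
  induction k with
  | zero => exact ⟨0, dvd_zero _, by simpa using hc⟩
  | succ k ih =>
    obtain ⟨n, ⟨n', hn⟩, e, he⟩ := ih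
    have hd : ¬ P ∣ 3 * n ^ 2 + a := by
      intro hd
      apply ha
      have := dvd_sub hd (Dvd.intro (3 * P * n' ^ 2) rfl : P ∣ P * (3 * P * n' ^ 2))
      have e1 : 3 * n ^ 2 + a - P * (3 * P * n' ^ 2) = a := by rw [hn]; ring
      rwa [e1] at this
    obtain ⟨u, w, huw⟩ := (hP.irreducible.coprime_iff_not_dvd).2 hd
    refine ⟨n + P ^ (k + 1) * (-e * w), ⟨n' + P ^ k * (-e * w), by rw [hn]; ring⟩,
      e * u + 3 * n * P ^ k * (-e * w) ^ 2 + P ^ (2 * k + 1) * (-e * w) ^ 3, ?_⟩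
    have e2 : (P ^ (k + 1 + 1) : ℤ) * P ^ (2 * k + 1) = (P ^ (k + 1)) ^ 3 := by ring
    have e3 : (P ^ (k + 1 + 1) : ℤ) * P ^ k = (P ^ (k + 1)) ^ 2 := by ring
    have e4 : (P ^ (k + 1 + 1) : ℤ) = P ^ (k + 1) * P := by ring
    linear_combination he - P ^ (k + 1) * e * huw - (-e * w) ^ 3 * e2 - 3 * n * (-e * w) ^ 2 * e3 -
      e * u * e4

/-! ### The twist -/

section tw

variable {p : ℕ} [Fact p.Prime]

theorem comp_dvd {a b D : ℤ} (hD : (D : ℚ_[p]) ≠ 0) {P : ℚ_[p][X]} (h : ff ℚ_[p] a b ∣ P) :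
    ff ℚ_[p] (a * D ^ 2) (b * D ^ 3) ∣ P.comp (C (D : ℚ_[p])⁻¹ * X) := by
  obtain ⟨Q, rfl⟩ := h
  rw [Polynomial.mul_comp]
  refine dvd_mul_of_dvd_left ?_ _
  refine ⟨C ((D : ℚ_[p])⁻¹ ^ 3), ?_⟩
  have e1 : C (D : ℚ_[p]) * C (D : ℚ_[p])⁻¹ = (1 : ℚ_[p][X]) := by
    rw [← C_mul, mul_inv_cancel₀ hD, C_1]
  unfold ff
  simp only [Polynomial.add_comp, Polynomial.mul_comp, Polynomial.pow_comp, Polynomial.X_comp,
    Polynomial.C_comp]
  push_cast
  simp only [C_mul, C_pow]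
  generalize C (D : ℚ_[p]) = d at *
  generalize C (D : ℚ_[p])⁻¹ = d' at *
  linear_combination (-(C (a : ℚ_[p]) * X * d' * (d * d' + 1)) -
    C (b : ℚ_[p]) * ((d * d') ^ 2 + d * d' + 1)) * e1

theorem comp_back {D : ℤ} (hD : (D : ℚ_[p]) ≠ 0) (h : ℚ[X]) :
    ((h.comp (C (D : ℚ) * X)).map (algebraMap ℚ ℚ_[p])).comp (C (D : ℚ_[p])⁻¹ * X) =
      h.map (algebraMap ℚ ℚ_[p]) := by
  rw [Polynomial.map_comp, Polynomial.comp_assoc]
  have e : ((C (D : ℚ) * X).map (algebraMap ℚ ℚ_[p])).comp (C (D : ℚ_[p])⁻¹ * X) = X := by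
    simp only [Polynomial.map_mul, Polynomial.map_C, Polynomial.map_X, Polynomial.mul_comp,
      Polynomial.C_comp, Polynomial.X_comp]
    rw [← mul_assoc, ← C_mul]
    have : algebraMap ℚ ℚ_[p] (D : ℚ) * (D : ℚ_[p])⁻¹ = 1 := by
      rw [map_intCast, mul_inv_cancel₀ hD]
    rw [this, C_1, one_mul]
  rw [e, Polynomial.comp_X]

end tw

theorem rjp : Pool.Agent.H458.AR.S_RJP := by
  intro L O _ _ _ _ _ _ _ a b D' θ hc hsq p _ h2 h3 hpb hns hD' α hα hN hU hE h hh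
  have hI : S_INT := Pool.Agent.N849.PQ.int
  have hP : Prime (p : ℤ) := Nat.prime_iff_prime_int.1 (Fact.out : p.Prime)
  have ha : ¬ (p : ℤ) ∣ a := fun hd => hns 0 (by simpa using hd)
  have hD'0 : D' ≠ 0 := by
    rintro rfl
    exact hD' (dvd_zero _)
  obtain ⟨D, hD⟩ : ∃ D : ℤ, D = p * D' := ⟨_, rfl⟩
  rw [← hD]
  rw [← hD] at hh
  have hDz : D ≠ 0 := by
    rw [hD]
    exact mul_ne_zero hP.ne_zero hD'0
  have hDp : (D : ℚ_[p]) ≠ 0 := by exact_mod_cast hDz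
  have hDL : (D : L) ≠ 0 := by exact_mod_cast hDz
  have hθ1 : aeval θ (h.comp (C (D : ℚ) * X)) = α := by
    rw [Polynomial.aeval_comp]
    simpa using hh
  obtain ⟨𝔓₁, 𝔮, hov1, hov2, hv1, hv2, -, hall⟩ :=
    Pool.Agent.N747.PQ.exq hI L O a b θ hc hsq p hP hpb hns
  by_cases hev : Ev 𝔮 α
  · -- first case
    have hsall : ∀ 𝔓 : HeightOneSpectrum O, Ov (p : ℤ) 𝔓 → Sq1 𝔓 α := by
      refine Pool.Agent.N667.PQ.ns0 hI L O a b θ hc hsq p hP hpb hns α hα hN hE ?_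
      intro 𝔓 hov hv
      rcases hall 𝔓 hov with rfl | rfl
      · exact absurd hv hv1.ne
      · exact (hU _ hov hv).1 hev
    obtain ⟨g, hg⟩ := sq_poly (O := O) hc hsq p h2 hpb hns α hα hsall _ hθ1
    left
    refine ⟨g.comp (C (D : ℚ_[p])⁻¹ * X), ?_⟩
    have h5 := comp_dvd hDp hg
    rwa [Polynomial.sub_comp, comp_back hDp, Polynomial.pow_comp] at h5
  · -- second case
    have hu := (hU 𝔮 hov2 hv2).2 hev
    obtain ⟨n, hpn, e, he⟩ := exists_n hP ha (p ^ 3 * D' : ℤ)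
      (dvd_sub hpb (Dvd.intro (p ^ 2 * D' : ℤ) (by ring))) 3
    obtain ⟨s, hs⟩ : ∃ s : ℤ, s = D' + p * e := ⟨_, rfl⟩
    have hsp : ¬ (p : ℤ) ∣ s := by
      intro hd
      apply hD'
      have := dvd_sub hd (Dvd.intro e rfl : (p : ℤ) ∣ p * e)
      rwa [hs, add_sub_cancel_right] at this
    have hs0 : s ≠ 0 := by
      rintro rfl
      exact hsp (dvd_zero _)
    have hf : n ^ 3 + a * n + b = p ^ 3 * s := by
      rw [hs]
      linear_combination he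
    -- the number `r = D³ f(n)`
    obtain ⟨r, hr⟩ : ∃ r : ℤ, r = p ^ 6 * D' ^ 3 * s := ⟨_, rfl⟩
    have hrf : D ^ 3 * (n ^ 3 + a * n + b) = r := by
      rw [hf, hr, hD]
      ring
    have hr0 : r ≠ 0 := by
      rw [hr]
      exact mul_ne_zero (mul_ne_zero (pow_ne_zero _ hP.ne_zero) (pow_ne_zero _ hD'0)) hs0
    -- its square root
    obtain ⟨ρ, hρ⟩ : ∃ ρ : ℚ_[p], ρ ^ 2 = (r : ℚ_[p]) := by
      obtain ⟨t, -, ht⟩ := lift_quad h2 1 (D' ^ 2) (-(p * (e * D' ^ 3)))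
        (fun hd => hD' (hP.dvd_of_dvd_pow hd)) (dvd_neg.2 (Dvd.intro _ rfl))
      refine ⟨p ^ 3 * (D' ^ 2 + t), ?_⟩
      rw [hr, hs]
      push_cast at ht ⊢
      linear_combination (p : ℚ_[p]) ^ 6 * ht
    have hρ0 : ρ ≠ 0 := by
      rintro rfl
      apply hr0
      have : (r : ℚ_[p]) = 0 := by rw [← hρ]; ring
      exact_mod_cast this
    -- the element
    have hpL : (p : L) ≠ 0 := by
      have := hP.ne_zero
      exact_mod_cast this
    have hθ0 : θ ≠ 0 := by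
      rintro rfl
      rw [map_zero] at hv2
      exact zero_ne_one hv2
    obtain ⟨z, hz⟩ : ∃ z : L, z = ((r * D * n : ℤ) : L) + ((-(r * D) : ℤ) : L) * θ := ⟨_, rfl⟩
    have hzc : Crd θ ![r * D * n, -(r * D), 0] z := by
      change z = _
      rw [hz]
      simp
    have hzN : Algebra.norm ℚ z = ((r ^ 4 : ℤ) : ℚ) := by
      rw [norm_crd hc hzc, eq_intCast]
      congr 1
      simp only [dn, Matrix.cons_val_zero, Matrix.cons_val_one, Matrix.cons_val]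
      linear_combination r ^ 3 * hrf
    have hz0 : z ≠ 0 := by
      rintro h0
      rw [h0, Algebra.norm_zero] at hzN
      have : (r ^ 4 : ℤ) = 0 := by exact_mod_cast hzN.symm
      exact pow_ne_zero 4 hr0 this
    have hβ0 : z * α ≠ 0 := mul_ne_zero hz0 hα
    have hβN : IsSquare (Algebra.norm ℚ (z * α)) := by
      rw [map_mul, hzN]
      refine IsSquare.mul ⟨((r ^ 2 : ℤ) : ℚ), ?_⟩ hN
      push_cast
      ring
    have hzn : z = ((r * D : ℤ) : L) * ((n : L) - θ) := by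
      rw [hz]
      push_cast
      ring
    -- the prime `𝔓₁`
    have hE1 : Ev 𝔓₁ (z * α) := by
      obtain ⟨y, hy⟩ := hE 𝔓₁ hov1 hv1
      have hn1 : 𝔓₁.valuation L (n : L) < 1 := (val_lt hP hov1 _).2 hpn
      have hq : 𝔓₁.valuation L ((n : L) ^ 2 + n * θ + θ ^ 2 + a) = 1 := by
        have ha1 : 𝔓₁.valuation L (a : L) = 1 := val_eq hP hov1 ha
        have h6 : 𝔓₁.valuation L ((n : L) ^ 2 + n * θ + θ ^ 2) < 𝔓₁.valuation L (a : L) := by
          rw [ha1]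
          refine Valuation.map_add_lt _ (Valuation.map_add_lt _ ?_ ?_) ?_
          · rw [map_pow]
            exact pow_lt_one₀ zero_le hn1 (by norm_num)
          · rw [map_mul]
            calc 𝔓₁.valuation L (n : L) * 𝔓₁.valuation L θ
                ≤ 1 * 𝔓₁.valuation L θ := mul_le_mul_left hn1.le _
              _ = 𝔓₁.valuation L θ := one_mul _
              _ < 1 := hv1
          · rw [map_pow]
            exact pow_lt_one₀ zero_le hv1 (by norm_num)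
        rw [Valuation.map_add_eq_of_lt_right _ h6, ha1]
      have hfac : ((n : L) - θ) * ((n : L) ^ 2 + n * θ + θ ^ 2 + a) = ((p ^ 3 * s : ℤ) : L) := by
        rw [← hf]
        push_cast
        linear_combination (-1 : L) * hc.root
      have hvn : 𝔓₁.valuation L ((n : L) - θ) = 𝔓₁.valuation L ((p ^ 3 * s : ℤ) : L) := by
        rw [← hfac, map_mul, hq, mul_one]
      refine ⟨(p : L) ^ 5 * y, ?_⟩
      have hsv : 𝔓₁.valuation L (s : L) = 1 := val_eq hP hov1 hsp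
      have hDv : 𝔓₁.valuation L (D' : L) = 1 := val_eq hP hov1 hD'
      rw [hzn, map_mul, map_mul, hvn, hy, ← map_mul, hr, hD]
      have e1 : ((((p ^ 6 * D' ^ 3 * s) * (p * D') : ℤ)) : L) * ((p ^ 3 * s : ℤ) : L) =
          (p : L) ^ 10 * (D' : L) ^ 4 * (s : L) ^ 2 := by
        push_cast
        ring
      rw [e1]
      simp only [map_mul, map_pow, hsv, hDv, one_pow, mul_one]
      rw [mul_pow, ← pow_mul]
    -- the prime `𝔮`
    have hQ1 : Sq1 𝔮 (z * α) := by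
      have hn1 : 𝔮.valuation L (n : L) < 1 := (val_lt hP hov2 _).2 hpn
      have h6 : Sq1 𝔮 (1 - (n : L) / θ) := by
        have h7 : 𝔮.valuation L ((n : L) / θ) < 1 := by
          rw [map_div₀, hv2, div_one]
          exact hn1
        refine ⟨1, ?_⟩
        have e1 : 𝔮.valuation L (1 - (n : L) / θ) = 1 := Valuation.map_one_sub_of_lt _ h7
        rw [e1]
        have e2 : 1 - (n : L) / θ - 1 ^ 2 = -((n : L) / θ) := by ring
        rw [e2, Valuation.map_neg]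
        exact h7
      have h8 : Sq1 𝔮 ((-(D' ^ 4 * s) : ℤ) : L) := by
        refine int_sq1 hc p hpb hns hov2 hv2 _ ?_
        intro hd
        rcases hP.dvd_or_dvd ((dvd_neg.1 hd)) with h9 | h9
        · exact hD' (hP.dvd_of_dvd_pow h9)
        · exact hsp h9
      have h9 := (sq1_mul_sq (pow_ne_zero 3 hpL)).2 (sq1_mul (sq1_mul h8 h6) hu)
      have e3 : ((-(D' ^ 4 * s) : ℤ) : L) * (1 - (n : L) / θ) * (α * ((p : L) * θ)) *
          ((p : L) ^ 3) ^ 2 = z * α := by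
        rw [hzn, hr, hD]
        push_cast
        field_simp
        ring
      rwa [e3] at h9
    have hsall : ∀ 𝔓 : HeightOneSpectrum O, Ov (p : ℤ) 𝔓 → Sq1 𝔓 (z * α) := by
      refine Pool.Agent.N667.PQ.ns0 hI L O a b θ hc hsq p hP hpb hns (z * α) hβ0 hβN ?_ ?_
      · intro 𝔓 hov hv
        rcases hall 𝔓 hov with rfl | rfl
        · exact hE1
        · exact absurd hv2 hv.ne
      · intro 𝔓 hov hv
        rcases hall 𝔓 hov with rfl | rfl
        · exact absurd hv hv1.ne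
        · exact hQ1
    obtain ⟨g, hg⟩ := sq_poly (O := O) hc hsq p h2 hpb hns (z * α) hβ0 hsall
      ((C (r : ℚ) * (C (D : ℚ) * C (n : ℚ) - C (D : ℚ) * X)) * h.comp (C (D : ℚ) * X)) (by
        have e5 : aeval θ (C (r : ℚ) * (C (D : ℚ) * C (n : ℚ) - C (D : ℚ) * X)) =
            ((r * D : ℤ) : L) * ((n : L) - θ) := by
          simp only [map_mul, map_sub, aeval_C, aeval_X, map_intCast, Int.cast_mul]
          ring
        rw [map_mul, hθ1, hzn, e5])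
    right
    refine ⟨D * n, ρ, hρ0, ?_, C ρ⁻¹ * g.comp (C (D : ℚ_[p])⁻¹ * X), ?_⟩
    · rw [hρ, ← hrf]
      push_cast
      ring
    · have h5 := comp_dvd hDp hg
      rw [Polynomial.sub_comp, Polynomial.map_mul, Polynomial.mul_comp, comp_back hDp,
        Polynomial.pow_comp] at h5
      have e1 : C (D : ℚ_[p]) * C (D : ℚ_[p])⁻¹ = (1 : ℚ_[p][X]) := by
        rw [← C_mul, mul_inv_cancel₀ hDp, C_1]
      have e2 : C ρ * C ρ⁻¹ = (1 : ℚ_[p][X]) := by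
        rw [← C_mul, mul_inv_cancel₀ hρ0, C_1]
      have e3 : C (r : ℚ_[p]) = C ρ ^ 2 := by rw [← hρ, C_pow]
      have e4 : ((C (r : ℚ) * (C (D : ℚ) * C (n : ℚ) - C (D : ℚ) * X)).map
          (algebraMap ℚ ℚ_[p])).comp (C (D : ℚ_[p])⁻¹ * X) =
          C ρ ^ 2 * (C ((D : ℚ_[p]) * n) - X) := by
        simp only [Polynomial.map_mul, Polynomial.map_sub, Polynomial.map_C, Polynomial.map_X,
          Polynomial.mul_comp, Polynomial.sub_comp, Polynomial.C_comp, Polynomial.X_comp,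
          eq_ratCast, Rat.cast_intCast]
        rw [e3, C_mul]
        linear_combination (-(C ρ ^ 2 * X)) * e1
      rw [e4] at h5
      obtain ⟨u, hu'⟩ := h5
      refine ⟨C ρ⁻¹ ^ 2 * u, ?_⟩
      push_cast at hu' ⊢
      linear_combination C ρ⁻¹ ^ 2 * hu' - ((C ((D : ℚ_[p]) * (n : ℚ_[p])) - X) *
        h.map (algebraMap ℚ ℚ_[p])) * (C ρ * C ρ⁻¹ + 1) * e2

end Pool.Agent.H350.AR458
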